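import Mathlib

set_option autoImplicit false
open Set Filter Topology
open scoped ENNReal

namespace Pool.Agent.Helper485.SemiEb

noncomputable section

lemma baire_nat {Q : Type} (q0 : Q) (c : (ℕ → Q) → ℕ) :
    ∃ i : ℕ, ∃ s : List Q, ∀ t : List Q, ∃ x : ℕ → Q, c x = i ∧ ∀ k, k < (s ++ t).length → (s ++ t)[k]? = some (x k) := by
  by_contra hcon
  push Not at hcon
  choose T hT using hcon
  let seq : ℕ → List Q := fun n => Nat.rec [] (fun n s => s ++ T n s ++ [q0]) n
  have hs : ∀ n, seq (n+1) = seq n ++ T n (seq n) ++ [q0] := fun n => rfl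
  have hpre1 : ∀ n, seq n <+: seq (n+1) := by
    intro n
    rw [hs n, List.append_assoc]
    exact List.prefix_append _ _
  have hpre : ∀ m n, m ≤ n → seq m <+: seq n := by
    intro m n h
    induction h with
    | refl => exact List.prefix_refl _
    | step _ ih => exact ih.trans (hpre1 _)
  have hlen : ∀ n, n ≤ (seq n).length := by
    intro n
    induction n with
    | zero => exact Nat.zero_le _
    | succ n ih =>
      rw [hs n]
      simp only [List.length_append, List.length_singleton]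
      omega
  let x : ℕ → Q := fun k => ((seq (k+1))[k]?).getD q0
  have hx : ∀ (s : List Q) (n : ℕ), s <+: seq n → ∀ k, k < s.length → s[k]? = some (x k) := by
    intro s n hsn k hk
    have h1 : s <+: seq (max n (k+1)) := hsn.trans (hpre n (max n (k+1)) (le_max_left n (k+1)))
    have h2 : seq (k+1) <+: seq (max n (k+1)) := hpre (k+1) (max n (k+1)) (le_max_right n (k+1))
    have hk2 : k < (seq (k+1)).length := lt_of_lt_of_le (Nat.lt_succ_self k) (hlen (k+1))
    have e1 : s[k]? = (seq (max n (k+1)))[k]? := by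
      obtain ⟨u, hu⟩ := h1
      rw [← hu, List.getElem?_append_left hk]
    have e2 : (seq (k+1))[k]? = (seq (max n (k+1)))[k]? := by
      obtain ⟨u, hu⟩ := h2
      rw [← hu, List.getElem?_append_left hk2]
    rw [e1, ← e2]
    show _ = some (((seq (k+1))[k]?).getD q0)
    rw [List.getElem?_eq_getElem hk2]
    rfl
  obtain ⟨k, hk, hne⟩ := hT (c x) (seq (c x)) x rfl
  apply hne
  apply hx _ (c x + 1) _ k hk
  rw [hs]
  exact List.prefix_append _ _

lemma baire_countable {Q ι : Type} [Countable ι] (q0 : Q) (c : (ℕ → Q) → ι) :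
    ∃ i : ι, ∃ s : List Q, ∀ t : List Q, ∃ x : ℕ → Q, c x = i ∧ ∀ k, k < (s ++ t).length → (s ++ t)[k]? = some (x k) := by
  obtain ⟨f, hf⟩ := exists_injective_nat ι
  obtain ⟨i, s, h⟩ := baire_nat q0 (fun x => f (c x))
  obtain ⟨x0, hx0, _⟩ := h []
  refine ⟨c x0, s, fun t => ?_⟩
  obtain ⟨x, hx, hx'⟩ := h t
  refine ⟨x, ?_, hx'⟩
  apply hf
  have hx1 : f (c x) = i := hx
  have hx2 : f (c x0) = i := hx0
  rw [hx1, hx2]

/-- counting: few sparse patterns cannot shatter -/
lemma count {Γ : Type} (n r k N : ℕ) (P : Finset (Fin r → ℤ)) (e : Fin N → Fin r → Γ)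
    (c : Finset (Fin N) → Γ → ℤ) (hval : ∀ S γ, c S γ ∈ Finset.Icc (-(k:ℤ)) k)
    (hsupp : ∀ S, ∃ T : Finset Γ, T.card ≤ n ∧ ∀ γ, c S γ ≠ 0 → γ ∈ T)
    (hS : ∀ S i, i ∈ S ↔ (fun a => c S (e i a)) ∈ P) :
    2 ^ N ≤ (N * r * (2 * k + 1) + 1) ^ n := by
  classical
  set U : Finset Γ := (Finset.univ : Finset (Fin N)).biUnion (fun i => (Finset.univ : Finset (Fin r)).image (e i)) with hU
  have hUc : U.card ≤ N * r := by
    refine (Finset.card_biUnion_le).trans ?_
    calc ∑ i : Fin N, ((Finset.univ : Finset (Fin r)).image (e i)).card ≤ ∑ i : Fin N, r := by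
          apply Finset.sum_le_sum
          intro i _
          exact Finset.card_image_le.trans (by simp)
      _ = N * r := by simp
  set B : Finset (Option (Γ × ℤ)) := insert none ((U ×ˢ Finset.Icc (-(k:ℤ)) k).image some) with hB
  have hBc : B.card ≤ N * r * (2 * k + 1) + 1 := by
    refine (Finset.card_insert_le _ _).trans ?_
    refine Nat.add_le_add_right (Finset.card_image_le.trans ?_) 1
    rw [Finset.card_product]
    apply Nat.mul_le_mul hUc
    rw [Int.card_Icc]
    omega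
  have hT : ∀ S, ∃ T : Finset (Γ × ℤ), T.card ≤ n ∧ T ⊆ (U ×ˢ Finset.Icc (-(k:ℤ)) k) ∧ ∀ γ ∈ U, ∀ v, (γ, v) ∈ T ↔ (c S γ = v ∧ v ≠ 0) := by
    intro S
    obtain ⟨T, hTc, hT⟩ := hsupp S
    refine ⟨((T ∩ U).filter (fun γ => c S γ ≠ 0)).image (fun γ => (γ, c S γ)), ?_, ?_, ?_⟩
    · refine Finset.card_image_le.trans ((Finset.card_filter_le _ _).trans ?_)
      exact (Finset.card_le_card Finset.inter_subset_left).trans hTc
    · intro p hp
      rw [Finset.mem_image] at hp
      obtain ⟨γ, hγ, rfl⟩ := hp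
      rw [Finset.mem_filter, Finset.mem_inter] at hγ
      exact Finset.mem_product.2 ⟨hγ.1.2, hval S γ⟩
    · intro γ hγ v
      rw [Finset.mem_image]
      constructor
      · rintro ⟨γ', hγ', h⟩
        rw [Finset.mem_filter] at hγ'
        obtain ⟨h1, h2⟩ := Prod.ext_iff.1 h
        simp only at h1 h2
        subst h1
        exact ⟨h2, h2 ▸ hγ'.2⟩
      · rintro ⟨h1, h2⟩
        refine ⟨γ, ?_, by rw [h1]⟩
        rw [Finset.mem_filter, Finset.mem_inter]
        have : c S γ ≠ 0 := by rw [h1]; exact h2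
        exact ⟨⟨hT γ this, hγ⟩, this⟩
  choose T hTc hTs hTm using hT
  have hw : ∀ S, ∃ w : Fin n → Option (Γ × ℤ), (∀ i, w i ∈ B) ∧ ∀ p, p ∈ T S ↔ ∃ i, w i = some p := by
    intro S
    refine ⟨fun i => (T S).toList[(i:ℕ)]?, ?_, ?_⟩
    · intro i
      show (T S).toList[(i:ℕ)]? ∈ B
      cases h : (T S).toList[(i:ℕ)]? with
      | none => exact Finset.mem_insert_self _ _
      | some p =>
        apply Finset.mem_insert_of_mem
        rw [Finset.mem_image]
        refine ⟨p, hTs S ?_, rfl⟩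
        have := List.mem_of_getElem? h
        simpa using this
    · intro p
      rw [← Finset.mem_toList, List.mem_iff_getElem?]
      constructor
      · rintro ⟨i, hi⟩
        have hlt : i < (T S).toList.length := by
          by_contra hcon
          rw [List.getElem?_eq_none (by omega)] at hi
          exact absurd hi (by simp)
        rw [Finset.length_toList] at hlt
        exact ⟨⟨i, lt_of_lt_of_le hlt (hTc S)⟩, hi⟩
      · rintro ⟨i, hi⟩
        exact ⟨i, hi⟩
  choose w hwB hw' using hw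
  have hinj : Function.Injective w := by
    intro S S' h
    have hTT : ∀ p, p ∈ T S ↔ p ∈ T S' := by
      intro p
      rw [hw', hw', h]
    have hc : ∀ γ ∈ U, c S γ = c S' γ := by
      intro γ hγ
      by_cases h0 : c S γ = 0
      · by_contra hne
        have h1 : (γ, c S' γ) ∈ T S' := (hTm S' γ hγ _).2 ⟨rfl, fun h2 => hne (h0.trans h2.symm)⟩
        have h2 := (hTm S γ hγ _).1 ((hTT _).2 h1)
        exact hne h2.1
      · have h1 : (γ, c S γ) ∈ T S := (hTm S γ hγ _).2 ⟨rfl, h0⟩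
        have h2 := (hTm S' γ hγ _).1 ((hTT _).1 h1)
        exact h2.1.symm
    ext i
    rw [hS, hS]
    have : (fun a => c S (e i a)) = (fun a => c S' (e i a)) := by
      funext a
      apply hc
      rw [hU, Finset.mem_biUnion]
      exact ⟨i, Finset.mem_univ _, Finset.mem_image_of_mem _ (Finset.mem_univ _)⟩
    rw [this]
  have hcard : (Finset.univ : Finset (Finset (Fin N))).card ≤ (Fintype.piFinset (fun _ : Fin n => B)).card := by
    apply Finset.card_le_card_of_injOn w
    · intro S _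
      simp only [Finset.mem_coe, Fintype.mem_piFinset]
      exact hwB S
    · exact hinj.injOn
  rw [Finset.card_univ, Fintype.card_finset, Fintype.card_fin, Fintype.card_piFinset] at hcard
  simp only [Finset.prod_const, Finset.card_univ, Fintype.card_fin] at hcard
  exact hcard.trans (Nat.pow_le_pow_left hBc n)

lemma exists_big (n r k : ℕ) : ∃ N : ℕ, (N * r * (2 * k + 1) + 1) ^ n < 2 ^ N := by
  have h := tendsto_pow_const_div_const_pow_of_one_lt n (show (1:ℝ) < 2 by norm_num)
  have hc : (0:ℝ) < 1 / ((r * (2 * k + 1) + 1 : ℝ) ^ n) := by positivity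
  have h1 := (tendsto_order.1 h).2 _ hc
  obtain ⟨N, hN1, hN2⟩ := (h1.and (Filter.eventually_ge_atTop 1)).exists
  refine ⟨N, ?_⟩
  have h2 : ((N:ℝ) ^ n) * ((r * (2 * k + 1) + 1 : ℝ) ^ n) < 2 ^ N := by
    rw [div_lt_div_iff₀ (by positivity) (by positivity)] at hN1
    linarith
  have h3 : (N * r * (2 * k + 1) + 1) ^ n ≤ (N ^ n) * (r * (2 * k + 1) + 1) ^ n := by
    rw [← mul_pow]
    apply Nat.pow_le_pow_left
    nlinarith
  have h4 : (((N ^ n) * (r * (2 * k + 1) + 1) ^ n : ℕ) : ℝ) < ((2 ^ N : ℕ) : ℝ) := by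
    push_cast
    exact h2
  exact lt_of_le_of_lt h3 (by exact_mod_cast h4)

/-- admissible finite sets of sequences -/
def Good (A : Finset (ℕ → ℕ)) : Prop :=
  ∃ l : ℕ, A.card ≤ l ∧ ∀ a ∈ A, ∀ b ∈ A, a ≠ b → (∀ i < l, a i = b i) ∧ a l ≠ b l

/-- admissible sets as a type -/
abbrev Q : Type := {A : Finset (ℕ → ℕ) // Good A}

/-- index set of the isolated points -/
abbrev M : Type := ℕ → Q

lemma good_empty : Good ∅ := ⟨0, by simp, by simp⟩

/-- bounded functions -/
abbrev E : Type := lp (fun _ : M => ℝ) ∞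

/-- bounded functions as elements of `E` -/
def vec (f : M → ℝ) (C : ℝ) (hf : ∀ i, |f i| ≤ C) : E :=
  ⟨f, memℓp_infty ⟨C, by rintro _ ⟨i, rfl⟩; simpa using hf i⟩⟩

@[simp] lemma vec_apply (f : M → ℝ) (C : ℝ) (hf : ∀ i, |f i| ≤ C) (i : M) : vec f C hf i = f i := rfl

lemma norm_le_of (x : E) {C : ℝ} (hC : 0 ≤ C) (h : ∀ i, |x i| ≤ C) : ‖x‖ ≤ C :=
  lp.norm_le_of_forall_le hC (fun i => by simpa using h i)

lemma apply_le_norm (x : E) (i : M) : |x i| ≤ ‖x‖ := by
  simpa using lp.norm_apply_le_norm (by simp) x i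

/-- index set of the generators -/
abbrev Idx : Type := ((ℕ → ℕ) × ℕ) ⊕ M

open Classical in
/-- the generators -/
def gen : Idx → E
  | Sum.inl p => vec (fun x => if p.1 ∈ (x p.2).1 then 1 else 0) 1 (fun x => by split_ifs <;> simp)
  | Sum.inr y => vec (fun x => if x = y then 1 else 0) 1 (fun x => by split_ifs <;> simp)

open Classical in
lemma gen_inl (p : (ℕ → ℕ) × ℕ) (x : M) : gen (Sum.inl p) x = if p.1 ∈ (x p.2).1 then 1 else 0 := rfl
open Classical in
lemma gen_inr (y : M) (x : M) : gen (Sum.inr y) x = if x = y then 1 else 0 := rfl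

/-- span -/
def Sp : Submodule ℝ E := Submodule.span ℝ (range gen)

/-- the Banach space -/
abbrev X : Type := Sp.topologicalClosure

instance : CompleteSpace X := by infer_instance

/-- generators in X -/
def gx (i : Idx) : X := ⟨gen i, Submodule.le_topologicalClosure _ (Submodule.subset_span ⟨i, rfl⟩)⟩

lemma X_norm_le_of (x : X) {C : ℝ} (hC : 0 ≤ C) (h : ∀ i, |(x : E) i| ≤ C) : ‖x‖ ≤ C :=
  norm_le_of (x : E) hC h

lemma norm_gx (i : Idx) : ‖gx i‖ ≤ 1 := by
  apply X_norm_le_of _ zero_le_one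
  intro x
  show |gen i x| ≤ 1
  classical
  rcases i with p | y
  · rw [gen_inl]; split_ifs <;> simp
  · rw [gen_inr]; split_ifs <;> simp

/-- coordinate functionals on `X` -/
def co (i : M) : X →L[ℝ] ℝ :=
  (LinearMap.mkContinuous { toFun := fun x : X => (x : E) i, map_add' := fun x y => by simp, map_smul' := fun c x => by simp } 1
    (fun x => by simpa using apply_le_norm (x : E) i))

lemma co_apply (i : M) (x : X) : co i x = (x : E) i := rfl

/-- the general estimate used for smallness of coefficients -/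
lemma coeff_bound (f : X →L[ℝ] ℝ) (hf : ‖f‖ ≤ 1) {ι : Type} (S : Finset ι) (g : ι → X) (C : ℝ) (hC : 0 ≤ C)
    (hg : ∀ x : M, ∑ i ∈ S, |(g i : E) x| ≤ C) : ∑ i ∈ S, |f (g i)| ≤ C := by
  set η : ι → ℝ := fun i => if 0 ≤ f (g i) then 1 else -1 with hη
  have h1 : ∀ i, |η i| ≤ 1 := by
    intro i
    simp only [hη]
    split_ifs <;> simp
  have h2 : ∑ i ∈ S, |f (g i)| = f (∑ i ∈ S, η i • g i) := by
    rw [map_sum]
    refine Finset.sum_congr rfl (fun i _ => ?_)
    simp only [map_smul, hη, smul_eq_mul]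
    split_ifs with h
    · rw [abs_of_nonneg h, one_mul]
    · push Not at h
      rw [abs_of_neg h]; ring
  have h3 : ‖∑ i ∈ S, η i • g i‖ ≤ C := by
    apply X_norm_le_of _ hC
    intro x
    have : ((∑ i ∈ S, η i • g i : X) : E) x = ∑ i ∈ S, η i * (g i : E) x := by
      have h4 : ((∑ i ∈ S, η i • g i : X) : E) = ∑ i ∈ S, η i • (g i : E) := by
        simp
      rw [h4]
      simp only [lp.coeFn_sum, Finset.sum_apply, lp.coeFn_smul, Pi.smul_apply, smul_eq_mul]
    rw [this]
    refine (Finset.abs_sum_le_sum_abs _ _).trans (le_trans (Finset.sum_le_sum (fun i _ => ?_)) (hg x))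
    rw [abs_mul]
    exact mul_le_of_le_one_left (abs_nonneg _) (h1 i)
  rw [h2]
  refine (le_abs_self _).trans ((f.le_opNorm _).trans ?_)
  calc ‖f‖ * ‖∑ i ∈ S, η i • g i‖ ≤ 1 * C := mul_le_mul hf h3 (norm_nonneg _) zero_le_one
    _ = C := one_mul C

/-- combinatorics: an infinite set of sequences has arbitrarily large finite subsets meeting admissible
sets in few points -/
lemma infinite_sparse (D : Set (ℕ → ℕ)) (hD : D.Infinite) :
    ∃ C : ℕ, ∀ N : ℕ, ∃ S : Finset (ℕ → ℕ), (S : Set (ℕ → ℕ)) ⊆ D ∧ S.card = N ∧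
      ∀ A : Finset (ℕ → ℕ), Good A → ∀ B : Finset (ℕ → ℕ), B ⊆ A → B ⊆ S → B.card ≤ C := by
  classical
  by_cases hcase : ∃ k, ((fun a : ℕ → ℕ => a k) '' D).Infinite
  · -- least level with infinitely many values
    set k := Nat.find hcase with hk
    have hkinf : ((fun a : ℕ → ℕ => a k) '' D).Infinite := Nat.find_spec hcase
    have hkmin : ∀ j < k, ((fun a : ℕ → ℕ => a j) '' D).Finite := by
      intro j hj
      have := Nat.find_min hcase hj
      rwa [Set.not_infinite] at this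
    -- choose representatives
    have hrep : ∀ v : ℕ, ∃ a : ℕ → ℕ, v ∈ ((fun a : ℕ → ℕ => a k) '' D) → (a ∈ D ∧ a k = v) := by
      intro v
      by_cases hv : v ∈ ((fun a : ℕ → ℕ => a k) '' D)
      · obtain ⟨a, ha, hav⟩ := hv
        exact ⟨a, fun _ => ⟨ha, hav⟩⟩
      · exact ⟨fun _ => 0, fun h => absurd h hv⟩
    choose rep hrep using hrep
    set V := ((fun a : ℕ → ℕ => a k) '' D) with hV
    -- restriction to below k takes finitely many values on the representatives
    have hfin : ((fun v : ℕ => (fun i : Fin k => rep v i)) '' V).Finite := by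
      have h1 : (Set.pi univ (fun i : Fin k => ((fun a : ℕ → ℕ => a (i:ℕ)) '' D))).Finite :=
        Set.Finite.pi (fun i => hkmin i i.2)
      refine h1.subset ?_
      rintro _ ⟨v, hv, rfl⟩
      intro i _
      exact ⟨rep v, (hrep v hv).1, rfl⟩
    obtain ⟨s, hs, hsinf⟩ : ∃ s ∈ ((fun v : ℕ => (fun i : Fin k => rep v i)) '' V),
        (V ∩ (fun v : ℕ => (fun i : Fin k => rep v i)) ⁻¹' {s}).Infinite := by
      by_contra hcon
      push Not at hcon
      apply hkinf
      have : V = ⋃ s ∈ ((fun v : ℕ => (fun i : Fin k => rep v i)) '' V), (V ∩ (fun v : ℕ => (fun i : Fin k => rep v i)) ⁻¹' {s}) := by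
        ext v
        simp only [mem_iUnion, mem_inter_iff, mem_preimage, mem_singleton_iff, exists_prop]
        constructor
        · intro hv
          exact ⟨_, ⟨v, hv, rfl⟩, hv, rfl⟩
        · rintro ⟨_, _, hv, _⟩
          exact hv
      rw [this]
      apply hfin.biUnion
      intro s hs
      have := hcon s hs
      exact this
    refine ⟨max 1 k, fun N => ?_⟩
    obtain ⟨T, hT, hTc⟩ := hsinf.exists_subset_card_eq N
    have hinj : Set.InjOn rep (T : Set ℕ) := by
      intro v hv w hw h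
      rw [← (hrep v (hT hv).1).2, ← (hrep w (hT hw).1).2, h]
    refine ⟨T.image rep, ?_, ?_, ?_⟩
    · intro a ha
      rw [Finset.coe_image] at ha
      obtain ⟨v, hv, rfl⟩ := ha
      exact (hrep v (hT hv).1).1
    · rw [Finset.card_image_of_injOn hinj, hTc]
    · intro A ⟨l, hl, hA⟩ B hBA hBS
      by_cases hB : B.card ≤ 1
      · exact hB.trans (le_max_left _ _)
      · push Not at hB
        obtain ⟨a, ha, b, hb, hab⟩ := Finset.one_lt_card.1 hB
        have h1 := hA a (hBA ha) b (hBA hb) hab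
        have h2 : (∀ i < k, a i = b i) ∧ a k ≠ b k := by
          obtain ⟨v, hv, rfl⟩ := Finset.mem_image.1 (hBS ha)
          obtain ⟨w, hw, rfl⟩ := Finset.mem_image.1 (hBS hb)
          constructor
          · intro i hi
            have e1 := congrFun (show (fun i : Fin k => rep v i) = s from (hT hv).2) ⟨i, hi⟩
            have e2 := congrFun (show (fun i : Fin k => rep w i) = s from (hT hw).2) ⟨i, hi⟩
            simp only at e1 e2
            rw [e1, e2]
          · rw [(hrep v (hT hv).1).2, (hrep w (hT hw).1).2]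
            intro h
            apply hab
            rw [h]
        have hlk : l = k := by
          rcases lt_trichotomy l k with h | h | h
          · exact absurd (h2.1 l h) h1.2
          · exact h
          · exact absurd (h1.1 k h) h2.2
        exact (Finset.card_le_card hBA).trans ((hlk ▸ hl).trans (le_max_right _ _))
  · -- totally bounded case
    push Not at hcase
    have hfinall : ∀ k, ((fun a : ℕ → ℕ => a k) '' D).Finite := fun k => by
      have := hcase k
      exact this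
    have hcomp : IsCompact (Set.pi univ (fun k : ℕ => ((fun a : ℕ → ℕ => a k) '' D))) :=
      isCompact_univ_pi (fun k => (hfinall k).isCompact)
    have hsub : D ⊆ Set.pi univ (fun k : ℕ => ((fun a : ℕ → ℕ => a k) '' D)) := by
      intro a ha k _
      exact ⟨a, ha, rfl⟩
    obtain ⟨z, _, hz⟩ := hD.exists_accPt_of_subset_isCompact hcomp hsub
    -- neighbours agreeing with z up to n, different from z
    have hnear : ∀ n : ℕ, ∃ a ∈ D, a ≠ z ∧ ∀ i < n, a i = z i := by
      intro n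
      have hU : {a : ℕ → ℕ | ∀ i ∈ Set.Iio n, a i ∈ ({z i} : Set ℕ)} ∈ 𝓝 z := by
        have hmem : ∀ i ∈ Set.Iio n, ({z i} : Set ℕ) ∈ 𝓝 (z i) := fun i _ => (isOpen_discrete _).mem_nhds rfl
        exact set_pi_mem_nhds (Set.finite_Iio n) hmem
      rw [accPt_iff_nhds] at hz
      obtain ⟨a, ⟨ha1, ha2⟩, ha3⟩ := hz _ hU
      exact ⟨a, ha2, ha3, fun i hi => ha1 i hi⟩
    choose nb hnbD hnbne hnb using hnear
    have hsplit : ∀ n, ∃ m, n ≤ m ∧ (∀ i < m, nb n i = z i) ∧ nb n m ≠ z m := by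
      intro n
      have hex : ∃ m, nb n m ≠ z m := by
        by_contra hcon
        push Not at hcon
        exact hnbne n (funext hcon)
      refine ⟨Nat.find hex, ?_, ?_, Nat.find_spec hex⟩
      · by_contra hlt
        push Not at hlt
        exact Nat.find_spec hex (hnb n _ hlt)
      · intro i hi
        have := Nat.find_min hex hi
        simpa using this
    choose sp hsp1 hsp2 hsp3 using hsplit
    -- increasing sequence of levels
    let lv : ℕ → ℕ := fun j => Nat.rec 0 (fun _ n => sp n + 1) j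
    have hlv : ∀ j, lv (j+1) = sp (lv j) + 1 := fun j => rfl
    have hspmono : StrictMono (fun j => sp (lv j)) := by
      apply strictMono_nat_of_lt_succ
      intro j
      have : lv (j+1) ≤ sp (lv (j+1)) := hsp1 _
      rw [hlv] at this
      show sp (lv j) < sp (lv (j+1))
      rw [hlv]
      omega
    have hinj : Function.Injective (fun j => nb (lv j)) := by
      intro i j h
      by_contra hne
      rcases lt_or_gt_of_ne hne with hlt | hlt
      · have h1 := hspmono hlt
        have h2 := hsp2 (lv j) (sp (lv i)) h1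
        have h3 := hsp3 (lv i)
        simp only at h
        rw [h] at h3
        exact h3 h2
      · have h1 := hspmono hlt
        have h2 := hsp2 (lv i) (sp (lv j)) h1
        have h3 := hsp3 (lv j)
        simp only at h
        rw [← h] at h3
        exact h3 h2
    refine ⟨2, fun N => ?_⟩
    refine ⟨(Finset.range N).image (fun j => nb (lv j)), ?_, ?_, ?_⟩
    · intro a ha
      rw [Finset.coe_image] at ha
      obtain ⟨j, _, rfl⟩ := ha
      exact hnbD _
    · rw [Finset.card_image_of_injective _ hinj, Finset.card_range]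
    · intro A ⟨l, hl, hA⟩ B hBA hBS
      by_contra hcon
      push Not at hcon
      obtain ⟨a, b, c, ha, hb, hc, hab, hac, hbc⟩ := Finset.two_lt_card_iff.1 hcon
      obtain ⟨i, _, hi⟩ := Finset.mem_image.1 (hBS ha)
      obtain ⟨j, _, hj⟩ := Finset.mem_image.1 (hBS hb)
      obtain ⟨m, _, hm⟩ := Finset.mem_image.1 (hBS hc)
      -- the split level of two members is the minimum of their levels
      have key : ∀ p q : ℕ, p < q → nb (lv p) ∈ B → nb (lv q) ∈ B → l = sp (lv p) := by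
        intro p q hpq hp hq
        have hne : nb (lv p) ≠ nb (lv q) := fun h => (ne_of_lt hpq) (hinj h)
        have h1 := hA _ (hBA hp) _ (hBA hq) hne
        have h2 : sp (lv p) < sp (lv q) := hspmono hpq
        rcases lt_trichotomy l (sp (lv p)) with h | h | h
        · exfalso
          apply h1.2
          rw [hsp2 (lv p) l h, hsp2 (lv q) l (h.trans h2)]
        · exact h
        · exfalso
          have h3 := h1.1 _ h
          rw [hsp2 (lv q) _ h2] at h3
          exact hsp3 (lv p) h3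
      have trip : ∀ p q r : ℕ, p < q → q < r → nb (lv p) ∈ B → nb (lv q) ∈ B → nb (lv r) ∈ B → False := by
        intro p q r hpq hqr hp hq hr
        have e1 := key p q hpq hp hq
        have e2 := key q r hqr hq hr
        have h2 : sp (lv p) < sp (lv q) := hspmono hpq
        omega
      have hij : i ≠ j := fun h => hab (by rw [← hi, ← hj, h])
      have him : i ≠ m := fun h => hac (by rw [← hi, ← hm, h])
      have hjm : j ≠ m := fun h => hbc (by rw [← hj, ← hm, h])
      have hai : nb (lv i) ∈ B := by rw [show nb (lv i) = a from hi]; exact ha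
      have hbj : nb (lv j) ∈ B := by rw [show nb (lv j) = b from hj]; exact hb
      have hcm : nb (lv m) ∈ B := by rw [show nb (lv m) = c from hm]; exact hc
      rcases lt_or_gt_of_ne hij with h1 | h1 <;> rcases lt_or_gt_of_ne him with h2 | h2 <;>
        rcases lt_or_gt_of_ne hjm with h3 | h3
      · exact trip i j m h1 h3 hai hbj hcm
      · exact trip i m j h2 h3 hai hcm hbj
      · omega
      · exact trip m i j h2 h1 hcm hai hbj
      · exact trip j i m h1 h2 hbj hai hcm
      · omega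
      · exact trip j m i h3 h2 hbj hcm hai
      · exact trip m j i h3 h1 hcm hbj hai

/-- the dual ball -/
abbrev K : Type := {φ : WeakDual ℝ X // ∀ x : X, |φ x| ≤ ‖x‖}

lemma ball_compact {Y : Type} [NormedAddCommGroup Y] [NormedSpace ℝ Y] :
    IsCompact {φ : WeakDual ℝ Y | ∀ x : Y, |φ x| ≤ ‖x‖} := by
  have h := WeakDual.isCompact_closedBall (𝕜 := ℝ) (E := Y) 0 1
  convert h using 1
  ext φ
  rw [mem_preimage, Metric.mem_closedBall, dist_zero_right]
  constructor
  · intro hφ
    refine ContinuousLinearMap.opNorm_le_bound _ zero_le_one (fun x => ?_)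
    rw [one_mul]
    exact hφ x
  · intro hφ x
    have := ContinuousLinearMap.le_opNorm (WeakDual.toStrongDual φ) x
    calc |φ x| ≤ ‖WeakDual.toStrongDual φ‖ * ‖x‖ := this
      _ ≤ 1 * ‖x‖ := mul_le_mul_of_nonneg_right hφ (norm_nonneg _)
      _ = ‖x‖ := one_mul _

instance : CompactSpace K := isCompact_iff_compactSpace.1 (ball_compact (Y := X))

lemma K_norm (φ : K) : ‖(WeakDual.toStrongDual φ.1 : X →L[ℝ] ℝ)‖ ≤ 1 :=
  ContinuousLinearMap.opNorm_le_bound _ zero_le_one (fun x => by rw [one_mul]; exact φ.2 x)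

lemma K_coeff (φ : K) {ι : Type} (S : Finset ι) (g : ι → X) (C : ℝ) (hC : 0 ≤ C)
    (hg : ∀ x : M, ∑ i ∈ S, |(g i : E) x| ≤ C) : ∑ i ∈ S, |φ.1 (g i)| ≤ C :=
  coeff_bound (WeakDual.toStrongDual φ.1) (K_norm φ) S g C hC hg

lemma K_cont (x : X) : Continuous (fun φ : K => φ.1 x) :=
  (WeakDual.eval_continuous x).comp continuous_subtype_val

lemma K_ext (φ ψ : K) (h : ∀ i, φ.1 (gx i) = ψ.1 (gx i)) : φ = ψ := by
  have h0 : ∀ y ∈ Sp, ∀ hy : y ∈ Sp.topologicalClosure, φ.1 (⟨y, hy⟩ : X) = ψ.1 (⟨y, hy⟩ : X) := by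
    intro y hy
    induction hy using Submodule.span_induction with
    | mem y hy =>
      obtain ⟨i, rfl⟩ := hy
      intro _
      exact h i
    | zero =>
      intro h0
      have : (⟨0, h0⟩ : X) = 0 := rfl
      rw [this, map_zero, map_zero]
    | add a b ha hb iha ihb =>
      intro hab
      have h1 : a ∈ Sp.topologicalClosure := Submodule.le_topologicalClosure _ ha
      have h2 : b ∈ Sp.topologicalClosure := Submodule.le_topologicalClosure _ hb
      have : (⟨a + b, hab⟩ : X) = ⟨a, h1⟩ + ⟨b, h2⟩ := rfl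
      rw [this, map_add, map_add, iha h1, ihb h2]
    | smul c a ha iha =>
      intro hab
      have h1 : a ∈ Sp.topologicalClosure := Submodule.le_topologicalClosure _ ha
      have : (⟨c • a, hab⟩ : X) = c • ⟨a, h1⟩ := rfl
      rw [this, map_smul, map_smul, iha h1]
  apply Subtype.ext
  apply DFunLike.ext
  intro x
  by_contra hne
  have hpos : 0 < |φ.1 x - ψ.1 x| := abs_pos.2 (sub_ne_zero.2 hne)
  have hx : (x : E) ∈ closure (Sp : Set E) := x.2
  rw [Metric.mem_closure_iff] at hx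
  obtain ⟨y, hy, hxy⟩ := hx (|φ.1 x - ψ.1 x| / 2) (half_pos hpos)
  have hyX : y ∈ Sp.topologicalClosure := Submodule.le_topologicalClosure _ hy
  have e := h0 y hy hyX
  have hn : ‖x - ⟨y, hyX⟩‖ < |φ.1 x - ψ.1 x| / 2 := by
    rw [dist_eq_norm] at hxy
    exact hxy
  have h1 := φ.2 (x - ⟨y, hyX⟩)
  have h2 := ψ.2 (x - ⟨y, hyX⟩)
  rw [map_sub] at h1 h2
  have h3 : φ.1 x - ψ.1 x = (φ.1 x - φ.1 ⟨y, hyX⟩) - (ψ.1 x - ψ.1 ⟨y, hyX⟩) := by
    rw [e]; ring
  have h4 : |φ.1 x - ψ.1 x| ≤ |φ.1 x - φ.1 ⟨y, hyX⟩| + |ψ.1 x - ψ.1 ⟨y, hyX⟩| := by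
    conv_lhs => rw [h3]
    exact abs_sub _ _
  linarith

lemma finite_inr (φ : K) (ε : ℝ) (hε : 0 < ε) : {x : M | ε ≤ |φ.1 (gx (Sum.inr x))|}.Finite := by
  classical
  by_contra hinf
  obtain ⟨N, hN⟩ := exists_nat_gt (1 / ε)
  obtain ⟨S, hS, hSc⟩ := Set.Infinite.exists_subset_card_eq hinf N
  have h1 : ∑ i ∈ S, |φ.1 (gx (Sum.inr i))| ≤ 1 := by
    apply K_coeff φ S (fun i => gx (Sum.inr i)) 1 zero_le_one
    intro x
    show ∑ i ∈ S, |gen (Sum.inr i) x| ≤ 1
    have : ∀ i ∈ S, |gen (Sum.inr i) x| = if x = i then 1 else 0 := by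
      intro i _
      rw [gen_inr]
      split_ifs <;> simp
    rw [Finset.sum_congr rfl this, Finset.sum_ite_eq]
    split_ifs <;> norm_num
  have h2 : (N : ℝ) * ε ≤ ∑ i ∈ S, |φ.1 (gx (Sum.inr i))| := by
    rw [← hSc, ← nsmul_eq_mul]
    exact Finset.card_nsmul_le_sum _ _ _ (fun i hi => hS hi)
  rw [div_lt_iff₀ hε] at hN
  linarith

lemma finite_inl (φ : K) (j : ℕ) (ε : ℝ) (hε : 0 < ε) : {a : ℕ → ℕ | ε ≤ |φ.1 (gx (Sum.inl (a, j)))|}.Finite := by
  classical
  by_contra hinf
  obtain ⟨C, hC⟩ := infinite_sparse _ hinf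
  obtain ⟨N, hN⟩ := exists_nat_gt (C / ε)
  obtain ⟨S, hS, hSc, hSA⟩ := hC N
  have h1 : ∑ i ∈ S, |φ.1 (gx (Sum.inl (i, j)))| ≤ C := by
    apply K_coeff φ S (fun i => gx (Sum.inl (i, j))) C (Nat.cast_nonneg _)
    intro x
    show ∑ i ∈ S, |gen (Sum.inl (i, j)) x| ≤ C
    have : ∀ i ∈ S, |gen (Sum.inl (i, j)) x| = if i ∈ (x j).1 then 1 else 0 := by
      intro i _
      rw [gen_inl]
      split_ifs <;> simp
    rw [Finset.sum_congr rfl this, ← Finset.sum_filter, Finset.sum_const, nsmul_eq_mul, mul_one]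
    have h3 := hSA (x j).1 (x j).2 (S.filter (fun i => i ∈ (x j).1)) (fun i hi => (Finset.mem_filter.1 hi).2)
      (Finset.filter_subset _ _)
    convert (Nat.cast_le (α := ℝ)).2 h3
  have h2 : (N : ℝ) * ε ≤ ∑ i ∈ S, |φ.1 (gx (Sum.inl (i, j)))| := by
    rw [← hSc, ← nsmul_eq_mul]
    exact Finset.card_nsmul_le_sum _ _ _ (fun i hi => hS hi)
  rw [div_lt_iff₀ hε] at hN
  linarith

/-- weights -/
def wt : Idx → ℝ
  | Sum.inl p => (1/2) ^ p.2
  | Sum.inr _ => 1

lemma wt_pos (i : Idx) : 0 < wt i := by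
  rcases i with p | y
  · exact pow_pos (by norm_num) _
  · exact one_pos

lemma wt_le (i : Idx) : wt i ≤ 1 := by
  rcases i with p | y
  · exact pow_le_one₀ (by norm_num) (by norm_num)
  · exact le_refl _

/-- sign -/
def sg (b : Bool) : ℝ := if b then 1 else -1

/-- the embedding into the cube -/
def hmap (φ : K) (q : Idx × Bool) : ℝ := wt q.1 * max 0 (sg q.2 * φ.1 (gx q.1))

lemma hmap_cont : Continuous hmap := by
  apply continuous_pi
  intro q
  exact continuous_const.mul (continuous_const.max (continuous_const.mul (K_cont _)))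

lemma hmap_inj : Function.Injective hmap := by
  intro φ ψ h
  apply K_ext
  intro i
  have h1 := congrFun h (i, true)
  have h2 := congrFun h (i, false)
  simp only [hmap, sg, if_true, Bool.false_eq_true, if_false] at h1 h2
  have h1' := mul_left_cancel₀ (wt_pos i).ne' h1
  have h2' := mul_left_cancel₀ (wt_pos i).ne' h2
  rw [one_mul, one_mul] at h1'
  have key : ∀ t : ℝ, t = max 0 t - max 0 (-1 * t) := by
    intro t
    rcases le_total 0 t with h | h
    · rw [max_eq_right h, max_eq_left (by linarith)]; ring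
    · rw [max_eq_left h, max_eq_right (by linarith)]; ring
  rw [key (φ.1 (gx i)), key (ψ.1 (gx i)), h1', h2']

lemma hmap_emb : IsEmbedding hmap := (hmap_cont.isClosedEmbedding hmap_inj).isEmbedding

lemma hmap_abs_le (φ : K) (q : Idx × Bool) : |hmap φ q| ≤ wt q.1 * |φ.1 (gx q.1)| := by
  rw [hmap, abs_mul, abs_of_pos (wt_pos _), abs_of_nonneg (le_max_left _ _)]
  apply mul_le_mul_of_nonneg_left _ (wt_pos _).le
  apply max_le (abs_nonneg _)
  rcases q with ⟨i, b⟩
  cases b
  · show (if false = true then (1:ℝ) else -1) * _ ≤ _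
    rw [if_neg (by simp)]
    have := neg_le_abs (φ.1 (gx i))
    linarith
  · show (if true = true then (1:ℝ) else -1) * _ ≤ _
    rw [if_pos rfl, one_mul]
    exact le_abs_self _

lemma hmap_nonneg (φ : K) (q : Idx × Bool) : 0 ≤ hmap φ q :=
  mul_nonneg (wt_pos _).le (le_max_left _ _)

lemma hmap_mem (φ : K) (q : Idx × Bool) : hmap φ q ∈ Set.Icc (0 : ℝ) 1 := by
  refine ⟨hmap_nonneg φ q, ?_⟩
  have h1 := hmap_abs_le φ q
  have h2 : |φ.1 (gx q.1)| ≤ 1 := (φ.2 _).trans (norm_gx _)
  have h3 : wt q.1 * |φ.1 (gx q.1)| ≤ 1 * 1 := mul_le_mul (wt_le _) h2 (abs_nonneg _) zero_le_one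
  exact (le_abs_self _).trans (h1.trans (by linarith))

lemma hmap_c0 (φ : K) (ε : ℝ) (hε : 0 < ε) : {q : Idx × Bool | ε ≤ |hmap φ q|}.Finite := by
  obtain ⟨J, hJ⟩ := exists_pow_lt_of_lt_one hε (show (1/2 : ℝ) < 1 by norm_num)
  have hA : ((⋃ j ∈ Finset.range J, (fun a : ℕ → ℕ => (Sum.inl (a, j) : Idx)) '' {a : ℕ → ℕ | ε ≤ |φ.1 (gx (Sum.inl (a, j)))|})
      ∪ (fun x : M => (Sum.inr x : Idx)) '' {x : M | ε ≤ |φ.1 (gx (Sum.inr x))|}).Finite := by
    apply Set.Finite.union
    · apply Set.Finite.biUnion (Finset.finite_toSet _)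
      intro j _
      exact (finite_inl φ j ε hε).image _
    · exact (finite_inr φ ε hε).image _
  refine (hA.prod (Set.finite_univ (α := Bool))).subset ?_
  rintro ⟨i, b⟩ hq
  refine ⟨?_, mem_univ _⟩
  have h1 : ε ≤ wt i * |φ.1 (gx i)| := le_trans hq (hmap_abs_le φ (i, b))
  rcases i with ⟨a, j⟩ | x
  · left
    have h2 : |φ.1 (gx (Sum.inl (a, j)))| ≤ 1 := (φ.2 _).trans (norm_gx _)
    have h3 : wt (Sum.inl (a, j)) = (1/2) ^ j := rfl
    have h4 : ε ≤ |φ.1 (gx (Sum.inl (a, j)))| := by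
      refine h1.trans ?_
      exact mul_le_of_le_one_left (abs_nonneg _) (wt_le _)
    have hj : j < J := by
      by_contra hcon
      push Not at hcon
      have h5 : ((1:ℝ)/2) ^ j ≤ (1/2) ^ J := pow_le_pow_of_le_one (by norm_num) (by norm_num) hcon
      have h6 : wt (Sum.inl (a, j)) * |φ.1 (gx (Sum.inl (a, j)))| ≤ (1/2) ^ j * 1 := by
        rw [h3]
        exact mul_le_mul_of_nonneg_left h2 (by positivity)
      linarith
    simp only [mem_iUnion, Finset.mem_range]
    exact ⟨j, hj, a, h4, rfl⟩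
  · right
    refine ⟨x, ?_, rfl⟩
    have h3 : wt (Sum.inr x) = 1 := rfl
    rw [h3, one_mul] at h1
    exact h1

lemma semi : ∃ (Γ : Type) (h : K → (Γ → ℝ)),
          Topology.IsEmbedding h ∧
          (∀ k γ, h k γ ∈ Set.Icc (0 : ℝ) 1) ∧
          Dense {k | ∀ ε : ℝ, ε > 0 → {γ : Γ | ε ≤ |h k γ|}.Finite} := by
  refine ⟨Idx × Bool, hmap, hmap_emb, hmap_mem, ?_⟩
  have : {k : K | ∀ ε : ℝ, ε > 0 → {γ : Idx × Bool | ε ≤ |hmap k γ|}.Finite} = univ := by
    ext φ
    simp only [mem_univ, iff_true]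
    exact fun ε hε => hmap_c0 φ ε hε
  rw [this]
  exact dense_univ

/-- finite dependence up to small error -/
lemma finite_dep {Γ : Type} (f : K → (Γ → ℝ)) (hf : Topology.IsEmbedding f)
    (g : K → ℝ) (hg : Continuous g) :
    ∃ (F : Finset Γ) (k : ℕ), ∀ φ ψ : K, (∀ γ ∈ F, ⌊(k:ℝ) * f φ γ⌋ = ⌊(k:ℝ) * f ψ γ⌋) → |g φ - g ψ| < 1/8 := by
  classical
  set Z : Set (K × K) := {p | 1/8 ≤ |g p.1 - g p.2|} with hZ
  have hZc : IsClosed Z := isClosed_le continuous_const
    (((hg.comp continuous_fst).sub (hg.comp continuous_snd)).abs)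
  have hZk : IsCompact Z := hZc.isCompact
  let V : Γ × ℕ → Set (K × K) := fun q => {p | 1 / ((q.2:ℝ) + 1) < |f p.1 q.1 - f p.2 q.1|}
  have hVo : ∀ q, IsOpen (V q) := by
    intro q
    apply isOpen_lt continuous_const
    have h1 : Continuous (fun p : K × K => f p.1 q.1) := (continuous_apply q.1).comp (hf.continuous.comp continuous_fst)
    have h2 : Continuous (fun p : K × K => f p.2 q.1) := (continuous_apply q.1).comp (hf.continuous.comp continuous_snd)
    exact (h1.sub h2).abs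
  have hcov : Z ⊆ ⋃ q, V q := by
    rintro ⟨φ, ψ⟩ hp
    have hne : φ ≠ ψ := by
      rintro rfl
      have h1 : (1:ℝ)/8 ≤ |g φ - g φ| := hp
      rw [sub_self, abs_zero] at h1
      norm_num at h1
    have hne2 : f φ ≠ f ψ := fun h => hne (hf.injective h)
    obtain ⟨γ, hγ⟩ := Function.ne_iff.1 hne2
    have hpos : 0 < |f φ γ - f ψ γ| := abs_pos.2 (sub_ne_zero.2 hγ)
    obtain ⟨m, hm⟩ := exists_nat_one_div_lt hpos
    exact mem_iUnion.2 ⟨(γ, m), hm⟩
  obtain ⟨T, hT⟩ := hZk.elim_finite_subcover V hVo hcov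
  refine ⟨T.image Prod.fst, T.sup Prod.snd + 1, ?_⟩
  intro φ ψ h
  by_contra hcon
  push Not at hcon
  have hmem : ((φ, ψ) : K × K) ∈ Z := hcon
  have h1 := hT hmem
  simp only [mem_iUnion] at h1
  obtain ⟨q, hq, hV⟩ := h1
  have h2 : (1:ℝ) / ((q.2:ℝ) + 1) < |f φ q.1 - f ψ q.1| := hV
  have h3 := h q.1 (Finset.mem_image_of_mem _ hq)
  have h4 := Int.abs_sub_lt_one_of_floor_eq_floor h3
  rw [← mul_sub, abs_mul] at h4
  have h5 : (q.2 : ℝ) + 1 ≤ |((T.sup Prod.snd + 1 : ℕ) : ℝ)| := by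
    rw [abs_of_nonneg (Nat.cast_nonneg _)]
    push_cast
    have : q.2 ≤ T.sup Prod.snd := Finset.le_sup (f := Prod.snd) hq
    have : (q.2 : ℝ) ≤ (T.sup Prod.snd : ℕ) := by exact_mod_cast this
    linarith
  have h6 : ((q.2 : ℝ) + 1) * |f φ q.1 - f ψ q.1| < 1 := lt_of_le_of_lt (mul_le_mul_of_nonneg_right h5 (abs_nonneg _)) h4
  have h7 : (0:ℝ) < (q.2 : ℝ) + 1 := by positivity
  rw [div_lt_iff₀ h7] at h2
  linarith [mul_comm ((q.2 : ℝ) + 1) |f φ q.1 - f ψ q.1|]

lemma floor_mem (k : ℕ) (t : ℝ) (ht : t ∈ Set.Icc (-1:ℝ) 1) : ⌊(k:ℝ) * t⌋ ∈ Finset.Icc (-(k:ℤ)) k := by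
  rw [Finset.mem_Icc]
  have hk : (0:ℝ) ≤ k := Nat.cast_nonneg k
  constructor
  · rw [Int.le_floor]
    push_cast
    nlinarith [ht.1]
  · have : (⌊(k:ℝ) * t⌋ : ℝ) ≤ k := (Int.floor_le _).trans (by nlinarith [ht.2])
    exact_mod_cast this

/-- separation by finitely many cells -/
lemma sep {Γ : Type} (f : K → (Γ → ℝ)) (hf : Topology.IsEmbedding f)
    (hI : ∀ φ γ, f φ γ ∈ Set.Icc (-1:ℝ) 1) (g : K → ℝ) (hg : Continuous g) :
    ∃ τ : (Σ r : ℕ, ℕ × Finset (Fin r → ℤ)), ∃ e : Fin τ.1 → Γ,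
      (∀ φ, 1/2 ≤ g φ → (fun a => ⌊(τ.2.1:ℝ) * f φ (e a)⌋) ∈ τ.2.2) ∧
      (∀ φ, g φ ≤ 1/4 → (fun a => ⌊(τ.2.1:ℝ) * f φ (e a)⌋) ∉ τ.2.2) := by
  classical
  obtain ⟨F, k, h⟩ := finite_dep f hf g hg
  let e : Fin F.card → Γ := fun a => (F.equivFin.symm a : Γ)
  let P : Finset (Fin F.card → ℤ) := (Fintype.piFinset (fun _ => Finset.Icc (-(k:ℤ)) k)).filter
    (fun p => ∃ φ : K, 1/2 ≤ g φ ∧ p = fun a => ⌊(k:ℝ) * f φ (e a)⌋)
  refine ⟨⟨F.card, (k, P)⟩, e, ?_, ?_⟩
  · intro φ hφ
    show (fun a => ⌊(k:ℝ) * f φ (e a)⌋) ∈ P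
    rw [Finset.mem_filter]
    refine ⟨?_, φ, hφ, rfl⟩
    rw [Fintype.mem_piFinset]
    intro a
    exact floor_mem k _ (hI φ (e a))
  · intro ψ hψ hmem
    have hmem' : (fun a => ⌊(k:ℝ) * f ψ (e a)⌋) ∈ P := hmem
    rw [Finset.mem_filter] at hmem'
    obtain ⟨_, φ, hφ, heq⟩ := hmem'
    have h1 := h φ ψ (by
      intro γ hγ
      have := congrFun heq (F.equivFin ⟨γ, hγ⟩)
      simp only [e, Equiv.symm_apply_apply] at this
      exact this.symm)
    have h2 := (abs_lt.1 h1).2
    linarith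

/-- evaluation at an isolated point, as an element of the ball -/
def coK (x : M) : K := ⟨StrongDual.toWeakDual (co x), fun y => by
  show |co x y| ≤ ‖y‖
  rw [co_apply]
  exact apply_le_norm (y : E) x⟩

lemma coK_apply (x : M) (y : X) : (coK x).1 y = (y : E) x := rfl

/-- the key estimate -/
lemma near_point (φ : K) (x : M) (p : (ℕ → ℕ) × ℕ) (h : 3/4 < φ.1 (gx (Sum.inr x))) :
    (p.1 ∈ (x p.2).1 → 1/2 ≤ φ.1 (gx (Sum.inl p))) ∧ (p.1 ∉ (x p.2).1 → φ.1 (gx (Sum.inl p)) ≤ 1/4) := by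
  classical
  constructor
  · intro hp
    have h1 : ‖gx (Sum.inr x) + gx (Sum.inr x) - gx (Sum.inl p)‖ ≤ 1 := by
      apply X_norm_le_of _ zero_le_one
      intro y
      show |gen (Sum.inr x) y + gen (Sum.inr x) y - gen (Sum.inl p) y| ≤ 1
      rw [gen_inr, gen_inl]
      by_cases hy : y = x
      · subst hy
        rw [if_pos rfl, if_pos hp]
        norm_num
      · rw [if_neg hy]
        split_ifs <;> norm_num
    have h2 := (φ.2 (gx (Sum.inr x) + gx (Sum.inr x) - gx (Sum.inl p))).trans h1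
    rw [map_sub, map_add] at h2
    have h3 := (abs_le.1 h2).2
    linarith
  · intro hp
    have h1 : ‖gx (Sum.inr x) + gx (Sum.inl p)‖ ≤ 1 := by
      apply X_norm_le_of _ zero_le_one
      intro y
      show |gen (Sum.inr x) y + gen (Sum.inl p) y| ≤ 1
      rw [gen_inr, gen_inl]
      by_cases hy : y = x
      · subst hy
        rw [if_pos rfl, if_neg hp]
        norm_num
      · rw [if_neg hy]
        split_ifs <;> norm_num
    have h2 := (φ.2 (gx (Sum.inr x) + gx (Sum.inl p))).trans h1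
    rw [map_add] at h2
    have h3 := (abs_le.1 h2).2
    linarith

lemma neg_part {Γ : Type} (f : K → (Γ → ℝ)) (hf : Topology.IsEmbedding f)
    (hI : ∀ φ γ, f φ γ ∈ Set.Icc (-1:ℝ) 1) (hD : Dense {k : K | {γ : Γ | f k γ ≠ 0}.Finite}) : False := by
  classical
  -- choice of the dense points
  have hμ : ∀ x : M, ∃ φ : K, {γ : Γ | f φ γ ≠ 0}.Finite ∧ 3/4 < φ.1 (gx (Sum.inr x)) := by
    intro x
    have hU : IsOpen {φ : K | 3/4 < φ.1 (gx (Sum.inr x))} := isOpen_lt continuous_const (K_cont _)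
    have hne : ({φ : K | 3/4 < φ.1 (gx (Sum.inr x))}).Nonempty := by
      refine ⟨coK x, ?_⟩
      show 3/4 < (coK x).1 (gx (Sum.inr x))
      rw [coK_apply]
      show 3/4 < gen (Sum.inr x) x
      rw [gen_inr, if_pos rfl]
      norm_num
    obtain ⟨φ, h1, h2⟩ := hD.inter_open_nonempty _ hU hne
    exact ⟨φ, h2, h1⟩
  choose μ hμfin hμ using hμ
  -- first Baire category argument
  obtain ⟨n, s, hs⟩ := baire_countable (⟨∅, good_empty⟩ : Q) (fun x => (hμfin x).toFinset.card)
  set j0 := s.length with hj0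
  have hxA : ∀ A : Q, ∃ x : M, (hμfin x).toFinset.card = n ∧ x j0 = A := by
    intro A
    obtain ⟨x, hx, hx'⟩ := hs [A]
    refine ⟨x, hx, ?_⟩
    have h1 := hx' j0 (by simp [hj0])
    rw [hj0, List.getElem?_append_right (le_refl _)] at h1
    simp only [Nat.sub_self, List.getElem?_cons_zero, Option.some.injEq] at h1
    rw [hj0]
    exact h1.symm
  choose xA hxAn hxA using hxA
  -- types of the functions
  have hτ : ∀ a : ℕ → ℕ, ∃ τ : (Σ r : ℕ, ℕ × Finset (Fin r → ℤ)), ∃ e : Fin τ.1 → Γ,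
      (∀ φ : K, 1/2 ≤ φ.1 (gx (Sum.inl (a, j0))) → (fun a => ⌊(τ.2.1:ℝ) * f φ (e a)⌋) ∈ τ.2.2) ∧
      (∀ φ : K, φ.1 (gx (Sum.inl (a, j0))) ≤ 1/4 → (fun a => ⌊(τ.2.1:ℝ) * f φ (e a)⌋) ∉ τ.2.2) :=
    fun a => sep f hf hI (fun φ => φ.1 (gx (Sum.inl (a, j0)))) (K_cont _)
  choose T hT using hτ
  obtain ⟨τ, s', hs'⟩ := baire_countable 0 T
  obtain ⟨N, hN⟩ := exists_big n τ.1 τ.2.1
  have hlam : ∀ i : Fin N, ∃ a : ℕ → ℕ, T a = τ ∧
      ∀ m, m < (s' ++ (List.replicate N 0 ++ [(i:ℕ)])).length → (s' ++ (List.replicate N 0 ++ [(i:ℕ)]))[m]? = some (a m) :=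
    fun i => hs' (List.replicate N 0 ++ [(i:ℕ)])
  choose lam hlamT hlam using hlam
  set l := s'.length + N with hl
  have hlow : ∀ i m, m < l → (s' ++ List.replicate N 0)[m]? = some (lam i m) := by
    intro i m hm
    have h1 := hlam i m (by simp only [List.length_append, List.length_replicate, List.length_singleton]; omega)
    rw [← List.append_assoc, List.getElem?_append_left (by simp only [List.length_append, List.length_replicate]; omega)] at h1
    exact h1
  have htop : ∀ i, lam i l = (i:ℕ) := by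
    intro i
    have h1 := hlam i l (by simp only [List.length_append, List.length_replicate, List.length_singleton]; omega)
    rw [← List.append_assoc, List.getElem?_append_right (by simp only [List.length_append, List.length_replicate]; omega)] at h1
    have h2 : l - (s' ++ List.replicate N 0).length = 0 := by
      simp only [List.length_append, List.length_replicate]; omega
    rw [h2] at h1
    simp only [List.getElem?_cons_zero, Option.some.injEq] at h1
    exact h1.symm
  have hlaminj : Function.Injective lam := by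
    intro i j h
    apply Fin.ext
    rw [← htop i, ← htop j, h]
  have hgood : ∀ S : Finset (Fin N), Good (S.image lam) := by
    intro S
    refine ⟨l, ?_, ?_⟩
    · refine Finset.card_image_le.trans ((Finset.card_le_univ S).trans ?_)
      rw [Fintype.card_fin]
      omega
    · intro a ha b hb hab
      obtain ⟨i, _, rfl⟩ := Finset.mem_image.1 ha
      obtain ⟨j, _, rfl⟩ := Finset.mem_image.1 hb
      constructor
      · intro m hm
        have h1 := hlow i m hm
        rw [hlow j m hm] at h1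
        exact (Option.some.inj h1).symm
      · rw [htop, htop]
        intro h
        apply hab
        rw [Fin.ext h]
  -- the shattering family
  have he : ∀ i : Fin N, ∃ e : Fin τ.1 → Γ,
      (∀ φ : K, 1/2 ≤ φ.1 (gx (Sum.inl (lam i, j0))) → (fun a => ⌊(τ.2.1:ℝ) * f φ (e a)⌋) ∈ τ.2.2) ∧
      (∀ φ : K, φ.1 (gx (Sum.inl (lam i, j0))) ≤ 1/4 → (fun a => ⌊(τ.2.1:ℝ) * f φ (e a)⌋) ∉ τ.2.2) := by
    intro i
    rw [← hlamT i]
    exact hT (lam i)
  choose e he1 he2 using he
  have hfinal := count n τ.1 τ.2.1 N τ.2.2 e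
    (fun S γ => ⌊(τ.2.1:ℝ) * f (μ (xA ⟨S.image lam, hgood S⟩)) γ⌋)
    (fun S γ => floor_mem _ _ (hI _ _))
    (fun S => ⟨(hμfin (xA ⟨S.image lam, hgood S⟩)).toFinset, (hxAn _).le, fun γ hγ => by
      rw [Set.Finite.mem_toFinset]
      intro h0
      apply hγ
      show ⌊(τ.2.1:ℝ) * f (μ (xA ⟨S.image lam, hgood S⟩)) γ⌋ = 0
      rw [h0, mul_zero, Int.floor_zero]⟩)
    (fun S i => by
      have hx := hxA ⟨S.image lam, hgood S⟩
      have hnp := near_point (μ (xA ⟨S.image lam, hgood S⟩)) (xA ⟨S.image lam, hgood S⟩) (lam i, j0) (hμ _)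
      constructor
      · intro hi
        apply he1 i
        apply hnp.1
        show lam i ∈ (xA ⟨S.image lam, hgood S⟩ j0).1
        rw [hx]
        exact Finset.mem_image_of_mem _ hi
      · intro hP
        by_contra hi
        refine he2 i _ (hnp.2 ?_) hP
        show lam i ∉ (xA ⟨S.image lam, hgood S⟩ j0).1
        rw [hx]
        intro hmem
        obtain ⟨j, hj, hji⟩ := Finset.mem_image.1 hmem
        rw [hlaminj hji] at hj
        exact hi hj)
  omega

end

end Pool.Agent.Helper485.SemiEb
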